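import Pool.Agent.Q97.FP2.Main

set_option autoImplicit false

/-!
# Lipschitz free `p`-spaces that are not isomorphic to their `ℓ_p`-sum

The definitions `IsPNorm`, `IsPBanach` and `IsFreePSpace` are in `Pool.Agent.Q97.FreeP.Defs`, the
definitions `IsIsoLp` and `IsIsoSq` in `Pool.Agent.Q97.FP2.Iso`.
-/

namespace Pool.Agent.Results.MP_642244_an.NotLpSum

open Q97.FreeP Q97.FP2

/-- For every `p` with `0 < p < 1/2` there is a `p`-Banach space `X` (namely `L_p[0,1]` modulo the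
constant functions) such that the Lipschitz free `p`-space `F` of `X` (which exists) is not
isomorphic to `ℓ_p(F)`; moreover `F` is not isomorphic to `ℓ_p(G)` or to `G ⊕ G` for any
`p`-normed space `G`. -/
theorem result (p : ℝ) (hp : 0 < p) (hp2 : p < 1 / 2) :
    ∃ (X : Type) (_ : AddCommGroup X) (_ : Module ℝ X) (q : X → ℝ),
      IsPBanach p q ∧
      (∃ (F : Type) (_ : AddCommGroup F) (_ : Module ℝ F) (Q : F → ℝ) (δ : X → F),
        IsFreePSpace p q Q δ) ∧
      ∀ (F : Type) [AddCommGroup F] [Module ℝ F] (Q : F → ℝ) (δ : X → F),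
        IsFreePSpace p q Q δ →
          (∀ T : F →ₗ[ℝ] (ℕ → F), ¬ IsIsoLp p Q Q T) ∧
          ∀ (G : Type) [AddCommGroup G] [Module ℝ G] (r : G → ℝ), IsPNorm p r →
            (∀ T : F →ₗ[ℝ] (ℕ → G), ¬ IsIsoLp p Q r T) ∧
            ∀ T : F ≃ₗ[ℝ] G × G, ¬ IsIsoSq Q r T :=
  Q97.FP2.main p hp hp2

end Pool.Agent.Results.MP_642244_an.NotLpSum
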